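import Pool.Agent.Helper99.T5g.AllG
import Pool.Agent.Helper30.T5g.Blocks

/-!
MP_12a1af_nt: sets with `r_A ≤ g` and `|A ∩ [0, x)| ≥ x ^ (1/2 - g ^ (- c log g))`.

There is `c > 0` such that for every integer `g ≥ 2` there is an infinite set `A` of natural
numbers with at most `g` ordered representations of every number, whose counting function is at
least `x ^ (1/2 - g ^ (- c log g))` for all large `x`.
-/

set_option autoImplicit false

namespace Pool.Agent.Results.MP_12a1af_nt.FixedG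

theorem result : ∃ c : ℝ, 0 < c ∧ ∀ g : ℕ, 2 ≤ g → ∃ A : Set ℕ, A.Infinite ∧
    (∀ n : ℕ, {p : ℕ × ℕ | p.1 ∈ A ∧ p.2 ∈ A ∧ p.1 + p.2 = n}.ncard ≤ g) ∧
    ∃ x0 : ℕ, ∀ x : ℕ, x0 ≤ x →
      (x : ℝ) ^ ((1 : ℝ) / 2 - (g : ℝ) ^ (-(c * Real.log g))) ≤
        ((A ∩ Set.Iio x).ncard : ℝ) :=
  Pool.Agent.Helper99.T5g.fixedG_all Pool.Agent.Helper30.T5g.blocks

end Pool.Agent.Results.MP_12a1af_nt.FixedG
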