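import Pool.Agent.Helper5.T5.Final

/-! MP_12a1af_nt, Q2: sets with `r_A(n) ≤ C (log n)^ε` and
`|A ∩ [0, x)| ≥ √x / (C (log x)^(K / ε))`. -/

namespace Pool.Agent.Results.MP_12a1af_nt.ThickLogEps

/-- There is a real `K` such that for every `0 < ε ≤ 1` there are a set `A` of natural numbers and
a real `C > 0` such that every `n ≥ 2` has at most `C (log n)^ε` ordered representations
`n = a + b` with `a, b ∈ A`, and `|A ∩ [0, x)| ≥ √x / (C (log x)^(K / ε))` for every `x ≥ 2`. -/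
theorem result : ∃ K : ℝ, ∀ ε : ℝ, 0 < ε → ε ≤ 1 → ∃ (A : Set ℕ) (C : ℝ), 0 < C ∧
    (∀ n : ℕ, 2 ≤ n →
      ({q : ℕ × ℕ | q.1 ∈ A ∧ q.2 ∈ A ∧ q.1 + q.2 = n}.ncard : ℝ) ≤ C * Real.log n ^ ε) ∧
    ∀ x : ℕ, 2 ≤ x →
      √(x : ℝ) / (C * Real.log x ^ (K / ε)) ≤ ((A ∩ Set.Iio x).ncard : ℝ) :=
  Helper5.T5.t5b'

end Pool.Agent.Results.MP_12a1af_nt.ThickLogEps
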